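import Mathlib
import Pool.Agent.H6.MinLenFinal

/-!
A minimum-length multiple of a nonmonic irreducible integer polynomial can be computed.
-/

open Polynomial

namespace Pool.Agent.Results.MP_e7878a_nt.MinLengthMultiple

/-- The length of `F`: the sum of the absolute values of its coefficients. -/
noncomputable def length (F : ℤ[X]) : ℤ := ∑ i ∈ F.support, |F.coeff i|

/-- `F` is a minimum-length multiple of `P`: it is a nonzero multiple of `P` in `ℤ[X]`, and its
length is smallest among all nonzero multiples of `P` in `ℤ[X]`. -/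
def IsMinLengthMultiple (P F : ℤ[X]) : Prop :=
  F ≠ 0 ∧ P ∣ F ∧ ∀ G : ℤ[X], G ≠ 0 → P ∣ G → length F ≤ length G

lemma length_eq (F : ℤ[X]) : length F = (Pool.Agent.H6.MinLen.len F : ℤ) := by
  unfold length Pool.Agent.H6.MinLen.len
  push_cast
  rfl

/-- There is a computable function on lists of integers which, applied to the list of coefficients
of an arbitrary nonmonic irreducible `P : ℤ[X]` of degree at least `1` (no condition on its
complex zeros), returns the list of coefficients of a minimum-length multiple of `P`. -/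
theorem result : ∃ f : List ℤ → List ℤ, Computable f ∧
    ∀ P : ℤ[X], Irreducible P → 1 ≤ P.natDegree → ¬ IsUnit P.leadingCoeff →
      ∃ F : ℤ[X], IsMinLengthMultiple P F ∧ f P.coeffList = F.coeffList := by
  refine ⟨Pool.Agent.H6.MinLen.alg, Pool.Agent.H6.MinLen.primrec_alg.to_comp, ?_⟩
  intro P hirr hdeg hlc
  obtain ⟨F, hF, hPF, hmin, halg⟩ := Pool.Agent.H6.MinLen.alg_correct P hirr hdeg hlc
  refine ⟨F, ⟨hF, hPF, ?_⟩, halg⟩
  intro G hG hPG
  rw [length_eq, length_eq]
  exact_mod_cast hmin G hG hPG

end Pool.Agent.Results.MP_e7878a_nt.MinLengthMultiple
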